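import Mathlib

/-!
# Frobenius systems over affine space in characteristic `p`: definitions and exact statements

Theorem (project FR, MP_e17fa799_al). `B = F_p[y_1, ..., y_d]`. A word `w` is a list of elementary matrices
`E_ij(1)`, `E_ij(y_l)` of size `n`, `N = prodW w` their product, and `V_w` the closed subscheme
`v_i ^ p = ∑_j N_ij v_j` of `A^n × A^d`, a finite etale `F_p`-vector space scheme over `A^d`. All groups
`K'_m(X)` of the schemes `X` of finite type over `F_p` of dimension at most `d` are finitely generated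
if and only if those of the `V_w` are. If the variables are independent (`r` letters `E_ij(y_k)`,
`k = 1, ..., r`), they are always finitely generated.

Proof. Every integral scheme of dimension `d` has a nonempty open affine subscheme `U` which is finite, free and
etale over `A^d` (`S_KED`). A basis `e_i` of its ring satisfies `e_i ^ p = ∑ N_ij e_j` with `N` invertible
(`S_BAS`), so that `U` is a connected-component-like (open and closed) part of the scheme `v ^ p = N v`
(`S_CLO`), and also for `N ⊕ N⁻¹`, which is a word (`S_ELEM`).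
-/

set_option autoImplicit false

namespace Pool.Agent.P8H48.FR

/-! ## definitions -/

/-- `φ` makes `B` a finite, free and etale algebra over `A`. -/
def FFE {A B : Type} [CommRing A] [CommRing B] (φ : A →+* B) : Prop :=
  letI := φ.toAlgebra
  Module.Finite A B ∧ Module.Free A B ∧ Algebra.Etale A B

/-- A letter: the elementary matrix with `1` (for `none`) or the variable `y_l` (for `some l`) at the place
`(i, j)`, `i ≠ j`. -/
structure Let (n d : ℕ) where
  i : Fin n
  j : Fin n
  ne : i ≠ j
  a : Option (Fin d)

/-- the entry of a letter -/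
noncomputable def ent (k : Type) [CommRing k] {d : ℕ} (a : Option (Fin d)) : MvPolynomial (Fin d) k :=
  a.elim 1 MvPolynomial.X

/-- The elementary matrix of a letter. -/
noncomputable def Let.mat (k : Type) [CommRing k] {n d : ℕ} (l : Let n d) :
    Matrix (Fin n) (Fin n) (MvPolynomial (Fin d) k) := Matrix.transvection l.i l.j (ent k l.a)

/-- The product of the elementary matrices of a word. -/
noncomputable def prodW (k : Type) [CommRing k] {n d : ℕ} (w : List (Let n d)) :
    Matrix (Fin n) (Fin n) (MvPolynomial (Fin d) k) := (w.map fun l => l.mat k).prod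

open MvPolynomial in
/-- The ring `B[v_1, ..., v_n] / (v_i ^ p - ∑_j N_ij v_j)`. -/
abbrev Frob (p : ℕ) {B : Type} [CommRing B] {n : ℕ} (N : Matrix (Fin n) (Fin n) B) : Type :=
  MvPolynomial (Fin n) B ⧸ Ideal.span (Set.range fun i => X i ^ p - ∑ j, C (N i j) * X j)

/-! ## packages -/

/-- COMP. Compositions, and isomorphisms. (Choose the algebra structures by `RingHom.toAlgebra` and an
`IsScalarTower` by `IsScalarTower.of_algebraMap_eq`; `Module.Finite.trans`, `Module.Free.trans`,
`Algebra.Etale.comp`, `Algebra.Etale.of_equiv`.) -/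
def S_COMP : Prop :=
  (∀ (A B C : Type) [CommRing A] [CommRing B] [CommRing C] (φ : A →+* B) (ψ : B →+* C),
    FFE φ → FFE ψ → FFE (ψ.comp φ)) ∧
  ∀ (A B : Type) [CommRing A] [CommRing B] (e : A ≃+* B), FFE (e : A →+* B)

/-- POLY. Base change to the polynomial ring: `B[X] = A[X] ⊗_A B` (`Polynomial.isPushout`, or
`polyEquivTensor`). -/
def S_POLY : Prop :=
  ∀ (A B : Type) [CommRing A] [CommRing B] (φ : A →+* B), FFE φ → FFE (Polynomial.mapRingHom φ)

/-- AWAY. Base change to a localisation: `B_φ(a) = A_a ⊗_A B`. -/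
def S_AWAY : Prop :=
  ∀ (A B : Type) [CommRing A] [CommRing B] (φ : A →+* B) (a : A), FFE φ →
    FFE (Localization.awayMap φ a)

open Polynomial in
/-- TRK (the trick of Kedlaya, in one variable). Put `f = (X + w ^ p) / g ^ p` in `B[X][1/g]` and let
`φ : B[T] → B[X][1/g]` be the map over `B` with `T ↦ f`. Let `Φ = X + w ^ p - T g ^ p` in `B[T][X]`; it is monic
of degree `p deg w` (as `deg g < deg w`), and its derivative is `1`. In `C = B[T][X] / Φ` the class of `g` is
a unit: `u g + v (X + w ^ p) = 1` gives `g (u + v T g ^ (p - 1)) = 1`. So `X ↦ X` defines `B[X][1/g] → C`, the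
inverse of the map `C → B[X][1/g]`, `T ↦ f`, `X ↦ X`. Hence `B[X][1/g] = AdjoinRoot Φ` is free over `B[T]`
with the power basis and (standard) etale as `Φ' = 1`. -/
def S_TRK : Prop :=
  ∀ (p : ℕ) [Fact p.Prime] (B : Type) [CommRing B] [CharP B p] (g w : B[X]), w.Monic →
    g.natDegree < w.natDegree → IsCoprime g (X + w ^ p) →
    ∃ φ : B[X] →+* Localization.Away g, FFE φ ∧
      ∀ b : B, φ (C b) = algebraMap B[X] (Localization.Away g) (C b)

open Polynomial in
/-- COP. Write `g = X ^ a g₁` with `g₁(0) ≠ 0`, and `g₂` the monic multiple of `g₁` by a constant. Put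
`w = g₂ (X ^ m + 1)` with `m` large. Modulo `g₂` the polynomial `X + w ^ p` is `X`, which is coprime to `g₂`,
and its value at `0` is `g₂(0) ^ p ≠ 0`. -/
def S_COP : Prop :=
  ∀ (p : ℕ) [Fact p.Prime] (K : Type) [Field K] (g : K[X]), g ≠ 0 →
    ∃ w : K[X], w.Monic ∧ g.natDegree < w.natDegree ∧ IsCoprime g (X + w ^ p)

open Polynomial in
/-- SPR (spreading out COP). Take `w`, `u`, `v` over the fraction field with `u g + v (X + w ^ p) = 1`; let `b`
be a common denominator of all coefficients. Then `w`, `u`, `v` come from `B_b` (where the identity holds too, as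
`B_b` is contained in the fraction field), and `B → B'` extends to `B_b`. -/
def S_SPR : Prop :=
  S_COP → ∀ (p : ℕ) [Fact p.Prime] (B : Type) [CommRing B] [IsDomain B] (g : B[X]), g ≠ 0 →
    ∃ b : B, b ≠ 0 ∧ ∀ (B' : Type) [CommRing B'] [Nontrivial B'] (ι : B →+* B'), IsUnit (ι b) →
      ∃ w : B'[X], w.Monic ∧ (g.map ι).natDegree < w.natDegree ∧ IsCoprime (g.map ι) (X + w ^ p)

open Polynomial in
/-- LOC. `B_h[X][1/g] = B[X][1/(h g)]`. -/
def S_LOC : Prop :=
  ∀ (B : Type) [CommRing B] (h : B) (g : B[X]),
    ∃ e : Localization.Away (g.map (algebraMap B (Localization.Away h))) ≃+*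
        Localization.Away (C h * g),
      ∀ q : B[X], e (algebraMap (Localization.Away h)[X] _ (q.map (algebraMap B (Localization.Away h)))) =
        algebraMap B[X] (Localization.Away (C h * g)) q

/-- IND. Every nonempty open subset of `A^d` contains a smaller principal one which is finite, free and etale
over `A^d`. Induction on `d`. `MvPolynomial (Fin (d + 1)) k` is `B[X]`, `B = MvPolynomial (Fin d) k`
(`MvPolynomial.finSuccEquiv`). For `g ≠ 0` take `b` from SPR and, by induction, `h'` with `b ∣ h'` and
`ψ : B → B_h'` (FFE). By SPR (for `B' = B_h'`) and TRK there is `φ : B_h'[X] → B_h'[X][1/g]`, FFE, over `B_h'`; the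
last ring is `B[X][1/(h' g)]` by LOC. Compose with `B[X] → B_h'[X]` (POLY). -/
def S_IND : Prop :=
  S_COMP → S_POLY → S_TRK → S_COP → S_SPR → S_LOC →
  ∀ (p : ℕ) [Fact p.Prime] (k : Type) [Field k] [CharP k p] (d : ℕ) (g : MvPolynomial (Fin d) k),
    g ≠ 0 → ∃ h : MvPolynomial (Fin d) k, h ≠ 0 ∧ g ∣ h ∧
      ∃ ψ : MvPolynomial (Fin d) k →ₐ[k] Localization.Away h, FFE ψ.toRingHom

/-- GEN (generic etaleness). `B` is a domain of finite type over the perfect field `k`, of dimension at most `n`.
Let `s` be a separating transcendence basis of the fraction field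
(`exists_isTranscendenceBasis_and_isSeparable_of_perfectField`; its cardinality is at most `n`, see the proof of
`Pool.Agent.Z125.UN.exists_gens`), contained in `B_f` for some `f ≠ 0`. Then for some `g ≠ 0` the ring
`B_f[1/g]` is finite, free and etale over `k[s][1/g]` (generic freeness and etaleness at the generic point, or:
`B_f[1/g] = k[s][1/g][T]/m(T)`, `m` the minimal polynomial of a primitive element, with `m'` a unit), and so
for all multiples `h` of `g` (AWAY). -/
def S_GEN : Prop :=
  S_COMP → S_AWAY →
  ∀ (k : Type) [Field k] [PerfectField k] (B : Type) [CommRing B] [IsDomain B] [Algebra k B]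
    [Algebra.FiniteType k B] (n : ℕ), ringKrullDim B ≤ n →
    ∃ d : ℕ, d ≤ n ∧ ∃ g : MvPolynomial (Fin d) k, g ≠ 0 ∧ ∀ h : MvPolynomial (Fin d) k, h ≠ 0 → g ∣ h →
      ∃ w : B, w ≠ 0 ∧ ∃ φ : Localization.Away h →ₐ[k] Localization.Away w, FFE φ.toRingHom

/-- BAS. In characteristic `p`, let `A` be finite, free and etale over `B`, with a basis `e`. Then the `e_i ^ p`
are a basis too. (`A` is generated by `B` and the `p`-th powers: let `A'` be the subalgebra `B[A ^ p]`; the kernel
`J` of `A ⊗_{A'} A → A` is generated by an idempotent, as `A` is unramified over `A'`, and it is a nil ideal,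
as `(a ⊗ 1 - 1 ⊗ a) ^ p = 0`; so `J = 0`, and as `A` is finite over `A'` the inclusion is surjective
(`RingHom.surjective_of_tmul_eq_tmul_of_finite`). So the `e_i ^ p` span `A`, and `n` elements which span a free module
of rank `n` are a basis. If `B` is trivial everything is trivial.) -/
def S_BAS : Prop :=
  ∀ (p : ℕ) [Fact p.Prime] (B A : Type) [CommRing B] [CharP B p] [CommRing A] [Algebra B A]
    [Algebra.Etale B A] (n : ℕ) (e : Module.Basis (Fin n) B A),
    ∃ N : Matrix (Fin n) (Fin n) B, IsUnit N.det ∧ ∀ i, e i ^ p = ∑ j, N i j • e j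

/-- FROB. If `N` is invertible and `p = 0` in `B`, then `Frob p N` is etale over `B` (the Jacobian matrix of the
equations is `-N`) and finite (it is spanned by the monomials with exponents smaller than `p`). -/
def S_FROB : Prop :=
  ∀ (p : ℕ) [Fact p.Prime] (B : Type) [CommRing B] [CharP B p] (n : ℕ)
    (N : Matrix (Fin n) (Fin n) B), IsUnit N.det →
    Algebra.Etale B (Frob p N) ∧ Module.Finite B (Frob p N)

/-- CLO. A surjection of etale algebras splits off: the kernel `J` is generated by an idempotent. (`A` is formally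
smooth over `B`, so `R / J ^ 2 → R / J = A` has a section `s` over `B`; as `R` is formally unramified over `B`, the two
maps `R → R / J ^ 2`, the quotient map and `s` after `R → A`, agree; so `J = J ^ 2`, and `J` is finitely generated:
`Ideal.isIdempotentElem_iff_of_fg`.) -/
def S_CLO : Prop :=
  ∀ (B R A : Type) [CommRing B] [CommRing R] [CommRing A] [Algebra B R] [Algebra B A]
    [Algebra.Etale B R] [Algebra.Etale B A] [IsNoetherianRing R] (f : R →ₐ[B] A), Function.Surjective f →
    ∃ e : R, IsIdempotentElem e ∧ RingHom.ker f = Ideal.span {e}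

/-- ELA (block matrices). `[[N, 0], [0, N⁻¹]]` is a product of matrices `[[1, M], [0, 1]]` and `[[1, 0], [M, 1]]`:
`E(N) F(-N⁻¹) E(N) E(-1) F(1) E(-1)`. -/
def S_ELA : Prop :=
  ∀ (B : Type) [CommRing B] (n : ℕ) (N : Matrix (Fin n) (Fin n) B), IsUnit N.det →
    Matrix.fromBlocks N 0 0 N⁻¹ ∈ Submonoid.closure
      {M : Matrix (Fin n ⊕ Fin n) (Fin n ⊕ Fin n) B |
        ∃ M' : Matrix (Fin n) (Fin n) B, M = Matrix.fromBlocks 1 M' 0 1 ∨ M = Matrix.fromBlocks 1 0 M' 1}

/-- ELB (elementary matrices). The transvections with arbitrary polynomial entries are words in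
the letters, for `n ≥ 3`: `E_ij(a + b) = E_ij(a) E_ij(b)`, `E_ij(a b) = [E_il(a), E_lj(b)]`, and the constants are
natural numbers modulo `p`. (Inverses: `E_ij(-a) = E_ij(a) ^ (p - 1)`. Prove that the `f` such that for all `i ≠ j`
the matrix `E_ij(f)` is a word are closed under sums, products and contain `1` and the variables.) -/
def S_ELB : Prop :=
  ∀ (p : ℕ) [Fact p.Prime] (n d : ℕ), 3 ≤ n → ∀ (i j : Fin n), i ≠ j →
    ∀ f : MvPolynomial (Fin d) (ZMod p), ∃ w : List (Let n d),
      prodW (ZMod p) w = Matrix.transvection i j f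

/-- ELC (assembly of ELA and ELB). Every invertible matrix is a block of a word of larger size. (Use size
`n + n + 3`, or `n + n` if it is at least three; a matrix `[[1, M], [0, 1]]` is a product of transvections.) -/
def S_ELC : Prop :=
  S_ELA → S_ELB →
  ∀ (p : ℕ) [Fact p.Prime] (n d : ℕ) (N : Matrix (Fin n) (Fin n) (MvPolynomial (Fin d) (ZMod p))),
    IsUnit N.det → ∃ (m : ℕ) (s : Fin n ↪ Fin m) (w : List (Let m d)),
      (∀ i j, prodW (ZMod p) w (s i) (s j) = N i j) ∧
      ∀ i j, j ∉ Set.range s → prodW (ZMod p) w (s i) j = 0 ∧ prodW (ZMod p) w j (s i) = 0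

end Pool.Agent.P8H48.FR
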