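import Pool.Agent.P8H48.FR.Stm

/-!
# Frobenius systems over affine space: more variables
-/

set_option autoImplicit false

namespace Pool.Agent.P8H48.FR

/-- EXT. Base change from `A^d` to `A^n`: `A[z_1, ..., z_(n - d)]` is finite, free and etale over
`k[y_1, ..., y_d][z_1, ..., z_(n - d)]`, which is a polynomial ring in `n` variables
(`MvPolynomial.sumAlgEquiv`, `MvPolynomial.renameEquiv`; base change as `MvPolynomial.algebraTensorAlgEquiv`, or by
induction with `finSuccEquiv`). -/
def S_EXT : Prop :=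
  S_COMP → ∀ (k : Type) [Field k] (d n : ℕ), d ≤ n → ∀ (A : Type) [CommRing A] [Algebra k A]
    (φ : MvPolynomial (Fin d) k →ₐ[k] A), FFE φ.toRingHom →
    ∃ ψ : MvPolynomial (Fin n) k →ₐ[k] MvPolynomial (Fin (n - d)) A, FFE ψ.toRingHom

end Pool.Agent.P8H48.FR
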