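import Pool.Agent.P8H48.FR.Stm2
import Pool.Agent.P8H48.FR.Stm3

/-!
# Hypersurfaces of additive polynomials

Second half of the theorem of project FR: for every `d` the groups `K'_m` of all `F_p`-schemes of dimension at
most `d` are finitely generated if and only if those of the hypersurfaces
`a_0(y) T + a_1(y) T ^ p + ... + a_(m-1)(y) T ^ (p ^ (m - 1)) + T ^ (p ^ m) = 0` in `A^(d+1)` are.
-/

set_option autoImplicit false

open CategoryTheory AlgebraicGeometry Pool.Agent.Y116.UV Pool.Agent.Z125.UN Pool.Agent.R904.TR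

namespace Pool.Agent.P8H48.FR

open Polynomial in
/-- the additive polynomial `∑ a_i T ^ (p ^ i)` -/
noncomputable def addPol (p : ℕ) {R : Type} [CommRing R] {m : ℕ} (a : Fin (m + 1) → R) : R[X] :=
  ∑ i, C (a i) * X ^ p ^ (i : ℕ)

/-- The ring `k[y_1, ..., y_d][T] / (∑ a_i(y) T ^ (p ^ i))`. -/
abbrev AddHyp (p : ℕ) {k : Type} [CommRing k] {d m : ℕ} (a : Fin (m + 1) → MvPolynomial (Fin d) k) :
    Type := Polynomial (MvPolynomial (Fin d) k) ⧸ Ideal.span {addPol p a}

/-- HYP. As GEN (use the proof of `Pool.Agent.P8H48.FR.gen`, with `exists_sep`, `away_away`, `gen_ffe` in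
`Pool/Agent/P8H48/FR/Gen.lean`, `Gen2.lean`), and the ring of the open subscheme is generated by a root of a monic
additive polynomial with unit linear coefficient. Let `E` be the field of fractions of
`R = k[x_1, ..., x_d]`, `x` a separating transcendence basis of `L = Frac B`, and `θ` a primitive element of
`L / E` (`Field.exists_primitive_element`). Let `m` be minimal such that `θ, θ ^ p, ..., θ ^ (p ^ m)` are
linearly dependent over `E` (`L` has finite degree). In a relation `∑ a_i θ ^ (p ^ i) = 0` the coefficient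
`a_m` is not zero as the first `m` powers are independent, and `a_0` is not zero as
`θ ^ p, ..., θ ^ (p ^ m)` are independent (`L / E` is separable:
`LinearIndependent.map_pow_expChar_pow_of_isSeparable'`). Clear denominators, and replace `θ` by
`a_m θ` to get `a_m = 1` and all `a_i` in `R`. For a suitable multiple `h` of `a_0` and of the `g` of GEN, `θ` is in
`B_w` and generates it over `R_h`. -/
def S_HYP : Prop :=
  S_COMP → S_AWAY → S_GEN →
  ∀ (p : ℕ) [Fact p.Prime] (k : Type) [Field k] [PerfectField k] [CharP k p] (B : Type) [CommRing B]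
    [IsDomain B] [Algebra k B] [Algebra.FiniteType k B] (n : ℕ), ringKrullDim B ≤ n →
    ∃ (d m : ℕ) (a : Fin (m + 1) → MvPolynomial (Fin d) k), d ≤ n ∧ a (Fin.last m) = 1 ∧
      ∃ h : MvPolynomial (Fin d) k, h ≠ 0 ∧ a 0 ∣ h ∧ ∃ w : B, w ≠ 0 ∧
        ∃ φ : Localization.Away h →ₐ[k] Localization.Away w, FFE φ.toRingHom ∧
          ∃ θ : Localization.Away w,
            Polynomial.eval₂ (φ.toRingHom.comp (algebraMap _ (Localization.Away h))) θ (addPol p a) = 0 ∧
            Function.Surjective (Polynomial.eval₂RingHom φ.toRingHom θ)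

/-- HASM (assembly). Put `R = k[y_1, ..., y_n]`, `k = F_p`. Induction on `n` (strong, or: first prove that the
hypothesis for `n` implies the one for all `d ≤ n`, by POLD, as `AddHyp p a` over `d` variables tensored
with a polynomial ring in `n - d` variables is `AddHyp` over `n` variables). By `Pool.Agent.Z125.UN.noeth` it is
enough to treat a localization of a domain `B`; take `d, m, a, h, w, φ, θ` of HYP. Let `Q = AddHyp p a`. Then
`Q_h = R_h[T] / (addPol)` is etale over `R_h` as the derivative of `addPol` is the unit `a_0`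
(`Polynomial`: standard etale, or `AdjoinRoot`), and it maps onto `B_w`, `T ↦ θ`; by CLO the kernel is
generated by an idempotent, so `P Q_h` implies `P B_w` (`Summ`). `P Q_h` follows from `P Q` and `P (Q / h)`
(`ring_open`); `Q / h` is finite over `k[y_1, ..., y_d] / h`, so that its dimension is at most `d - 1`
(`Pool.Agent.Z125.UN.dim_quot` and the proof of DIMF; for `d = 0` `h` is a unit), and `P (Q / h)` is true
by induction. -/
def S_HASM : Prop :=
  S_COMP → S_AWAY → S_GEN → S_HYP → S_CLO → S_POLD → S_DIMF →
  ∀ (p : ℕ) [Fact p.Prime] (sep : Prop) (P : Sch (ZMod p) → Prop), Bnd sep P → Summ P → ∀ (n : ℕ),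
    (∀ (m : ℕ) (a : Fin (m + 1) → MvPolynomial (Fin n) (ZMod p)), a (Fin.last m) = 1 →
      P (aff (ZMod p) (AddHyp p a))) →
    ∀ (A : Type) [CommRing A] [Algebra (ZMod p) A] [Algebra.FiniteType (ZMod p) A],
      ringKrullDim A ≤ n → P (aff (ZMod p) A)

end Pool.Agent.P8H48.FR
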