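import Pool.Agent.P8H48.FR.Asm
import Pool.Agent.P8H48.FR.Stm4
import Pool.Agent.H920R2.Sr1

/-!
# Frobenius systems, additive polynomials, and Bass's conjecture over `F_p`
-/

set_option autoImplicit false

open CategoryTheory AlgebraicGeometry Pool.Agent.Y116.UV Pool.Agent.Z125.UN Pool.Agent.R904.TR
open Pool.Agent.R904.CU

namespace Pool.Agent.P8H48.FR

section defs

variable (K : KThy) (p : ℕ)

/-- The groups `K'_m(X)` are finitely generated for all schemes `X` of finite type over `F_p` of dimension at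
most `d`. -/
def DimFin (d : ℕ) : Prop :=
  ∀ (X : Scheme.{0}) (f : X ⟶ Spec (.of (ZMod p))), FinType (ZMod p) X f → topologicalKrullDim X ≤ d → K.Fin X

/-- The same for regular schemes. -/
def RegFin (d : ℕ) : Prop :=
  ∀ (X : Scheme.{0}) (f : X ⟶ Spec (.of (ZMod p))), FinType (ZMod p) X f → IsRegularScheme X →
    topologicalKrullDim X ≤ d → K.Fin X

/-- The same for the schemes `v_i ^ p = ∑ N_ij(y) v_j` over the affine space with coordinates `y_1, ..., y_d`, for all
sizes `n` and all words `w` in the elementary matrices `E_ij(1)`, `E_ij(y_l)`, with product `N`. -/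
def WordFin (d : ℕ) : Prop := ∀ (n : ℕ) (w : List (Let n d)), K.Fin (sp (Frob p (prodW (ZMod p) w)))

/-- The same for the hypersurfaces `a_0(y) T + a_1(y) T ^ p + ... + T ^ (p ^ m) = 0` in the affine space of
dimension `d + 1`, for all `m` and all polynomials `a_i` in `y_1, ..., y_d`. -/
def AddFin (d : ℕ) : Prop :=
  ∀ (m : ℕ) (a : Fin (m + 1) → MvPolynomial (Fin d) (ZMod p)), a (Fin.last m) = 1 → K.Fin (sp (AddHyp p a))

/-- Bass's conjecture over `F_p`. -/
def BassP : Prop :=
  ∀ (X : Scheme.{0}) (f : X ⟶ Spec (.of (ZMod p))), FinType (ZMod p) X f → IsRegularScheme X → K.Fin X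

/-- Finite generation for all schemes of finite type over `F_p`, regular or not. -/
def AllP : Prop :=
  ∀ (X : Scheme.{0}) (f : X ⟶ Spec (.of (ZMod p))), FinType (ZMod p) X f → K.Fin X

end defs

theorem regular_etale {B A : Type} [CommRing B] [IsRegularRing B] [CommRing A] [Algebra B A]
    [Algebra.Etale B A] : IsRegularScheme (sp A) := by
  have hA : IsNoetherianRing A := Algebra.FiniteType.isNoetherianRing B A
  have h : IsRegularRing A := by
    rw [isRegularRing_iff]
    intro q hq
    exact Pool.Agent.H920R2.regular_of_etale (P := B) q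
  exact isRegularScheme_spec A

open Polynomial in
theorem monic_addPol (p : ℕ) [hp : Fact p.Prime] {R : Type} [CommRing R] {m : ℕ} (a : Fin (m + 1) → R)
    (ha : a (Fin.last m) = 1) : (addPol p a).Monic := by
  unfold addPol
  rw [Fin.sum_univ_castSucc, ha, map_one, one_mul, add_comm, Fin.val_last]
  apply monic_X_pow_add
  refine (degree_sum_le _ _).trans_lt ?_
  rw [Finset.sup_lt_iff (by exact WithBot.bot_lt_coe _)]
  intro i _
  refine (degree_C_mul_X_pow_le _ _).trans_lt ?_
  have h1 : p ^ (i.castSucc : ℕ) < p ^ m := Nat.pow_lt_pow_right hp.out.one_lt i.2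
  exact_mod_cast h1

theorem finite_addHyp (p : ℕ) [hp : Fact p.Prime] {d m : ℕ} (a : Fin (m + 1) → MvPolynomial (Fin d) (ZMod p))
    (ha : a (Fin.last m) = 1) : Module.Finite (MvPolynomial (Fin d) (ZMod p)) (AddHyp p a) :=
  (monic_addPol p a ha).finite_quotient

variable (K : KThy) (p : ℕ) [hp : Fact p.Prime]

theorem ft_zmod {A : Type} [CommRing A] [Algebra (ZMod p) A] [Algebra.FiniteType (ZMod p) A] :
    FinType (ZMod p) (sp A) (aff (ZMod p) A).hom :=
  ⟨(ft_aff (R := ZMod p) (A := A) False).locallyOfFiniteType,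
    (ft_aff (R := ZMod p) (A := A) False).quasiCompact⟩

theorem dim_tfae (H : Pk) (hK : S_KSUM) (hY : S_HYP) (hA : S_HASM) (d : ℕ) :
    List.TFAE [DimFin K p d, RegFin K p d, WordFin K p d, AddFin K p d] := by
  have hB := bnd K False (fin_field K (ZMod p))
  have hS := hK K p
  have hsch : (∀ (A : Type) [CommRing A] [Algebra (ZMod p) A] [Algebra.FiniteType (ZMod p) A],
      ringKrullDim A ≤ d → K.Fin (aff (ZMod p) A).left) → DimFin K p d := by
    intro h X f hf hX
    exact of_affine_dim hB (fun A _ _ _ hA => h A hA) (Over.mk f : Sch (ZMod p))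
      ⟨hf.1, hf.2, fun h => h.elim⟩ hX
  tfae_have 1 → 2 := fun h X f hf _ hX => h X f hf hX
  tfae_have 2 → 3 := by
    intro h n w
    have hM : IsUnit (prodW (ZMod p) w).det := by
      rw [det_prodW]
      exact isUnit_one
    obtain ⟨h1, h2⟩ := H.frob p (MvPolynomial (Fin d) (ZMod p)) n (prodW (ZMod p) w) hM
    have h3 : ringKrullDim (Frob p (prodW (ZMod p) w)) ≤ d := H.dimf (ZMod p) d _
    refine h _ _ (ft_zmod p) (regular_etale (B := MvPolynomial (Fin d) (ZMod p))) ?_
    have h4 := topDim_aff (k := ZMod p) (Frob p (prodW (ZMod p) w))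
    exact h4.trans_le h3
  tfae_have 3 → 1 := by
    intro h
    exact hsch fun A _ _ _ hA => p_affine H hB hS (fun m w => h m w) A hA
  tfae_have 1 → 4 := by
    intro h m a ha
    have h2 := finite_addHyp p a ha
    have h3 : ringKrullDim (AddHyp p a) ≤ d := H.dimf (ZMod p) d _
    refine h _ _ (ft_zmod p) ?_
    have h4 := topDim_aff (k := ZMod p) (AddHyp p a)
    exact h4.trans_le h3
  tfae_have 4 → 1 := by
    intro h
    exact hsch fun A _ _ _ hA' => hA H.comp H.away H.gen hY H.clo H.pold H.dimf p False _ hB hS d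
      (fun m a ha => h m a ha) A hA'
  tfae_finish

theorem exists_dim (A : Type) [CommRing A] [Algebra (ZMod p) A] [Algebra.FiniteType (ZMod p) A] :
    ∃ d : ℕ, ringKrullDim A ≤ d := by
  obtain ⟨n, f, hf⟩ := Algebra.FiniteType.iff_quotient_mvPolynomial''.mp
    (inferInstance : Algebra.FiniteType (ZMod p) A)
  refine ⟨n, (ringKrullDim_le_of_surjective f.toRingHom hf).trans ?_⟩
  rw [MvPolynomial.ringKrullDim_of_isNoetherianRing, ringKrullDim_eq_zero_of_field, zero_add,
    Nat.card_eq_fintype_card, Fintype.card_fin]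

theorem all_tfae (H : Pk) (hK : S_KSUM) (hY : S_HYP) (hA : S_HASM) :
    List.TFAE [BassP K p, AllP K p, ∀ d, WordFin K p d, ∀ d, AddFin K p d] := by
  have hB := bnd K False (fin_field K (ZMod p))
  have h0 : (∀ d, DimFin K p d) → AllP K p := by
    intro h X f hf
    refine of_affine hB.toUni (fun A _ _ _ => ?_) (Over.mk f : Sch (ZMod p))
      ⟨hf.1, hf.2, fun h => h.elim⟩
    obtain ⟨d, hd⟩ := exists_dim p A
    exact h d _ _ (ft_zmod p) ((topDim_aff (k := ZMod p) A).trans_le hd)
  have T := dim_tfae K p H hK hY hA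
  tfae_have 2 → 1 := fun h X f hf _ => h X f hf
  tfae_have 1 → 3 := fun h d => ((T d).out 1 2).mp fun X f hf hr _ => h X f hf hr
  tfae_have 3 → 2 := fun h => h0 fun d => ((T d).out 0 2).mpr (h d)
  tfae_have 3 → 4 := fun h d => ((T d).out 2 3).mp (h d)
  tfae_have 4 → 3 := fun h d => ((T d).out 2 3).mpr (h d)
  tfae_finish

end Pool.Agent.P8H48.FR
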