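import Pool.Agent.P8H48.FR.Stm

set_option autoImplicit false

namespace Pool.Agent.P8H48.FR

theorem comp : S_COMP := by
  refine ⟨?_, ?_⟩
  · intro A B C _ _ _ φ ψ hφ hψ
    let _ : Algebra A B := φ.toAlgebra
    let _ : Algebra B C := ψ.toAlgebra
    let _ : Algebra A C := (ψ.comp φ).toAlgebra
    have hT : IsScalarTower A B C := IsScalarTower.of_algebraMap_eq fun _ => rfl
    obtain ⟨h1, h2, h3⟩ := hφ
    obtain ⟨h4, h5, h6⟩ := hψ
    have h1' : Module.Finite A B := h1
    have h2' : Module.Free A B := h2
    have h3' : Algebra.Etale A B := h3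
    have h4' : Module.Finite B C := h4
    have h5' : Module.Free B C := h5
    have h6' : Algebra.Etale B C := h6
    exact ⟨Module.Finite.trans B C, Module.Free.trans (S := B), Algebra.Etale.comp A B C⟩
  · intro A B _ _ e
    let _ : Algebra A B := (e : A →+* B).toAlgebra
    let E : A ≃ₐ[A] B := AlgEquiv.ofRingEquiv (f := e) fun _ => rfl
    exact ⟨Module.Finite.equiv E.toLinearEquiv, Module.Free.of_equiv E.toLinearEquiv,
      Algebra.Etale.of_equiv E⟩

/-- base change -/
theorem ffe_pushout {A B A' B' : Type} [CommRing A] [CommRing B] [CommRing A'] [CommRing B']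
    [Algebra A B] [Algebra A A'] [Algebra B B'] [Algebra A' B'] [Algebra A B'] [IsScalarTower A B B']
    [IsScalarTower A A' B'] [Algebra.IsPushout A A' B B'] (h1 : Module.Finite A B) (h2 : Module.Free A B)
    (h3 : Algebra.Etale A B) : Module.Finite A' B' ∧ Module.Free A' B' ∧ Algebra.Etale A' B' := by
  let e : TensorProduct A A' B ≃ₐ[A'] B' := Algebra.IsPushout.equiv A A' B B'
  exact ⟨Module.Finite.equiv e.toLinearEquiv, Module.Free.of_equiv e.toLinearEquiv,
    Algebra.Etale.of_equiv e⟩

attribute [local instance] Polynomial.algebra in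
theorem poly : S_POLY := by
  intro A B _ _ φ hφ
  let _ : Algebra A B := φ.toAlgebra
  obtain ⟨h1, h2, h3⟩ := hφ
  have h1' : Module.Finite A B := h1
  have h2' : Module.Free A B := h2
  have h3' : Algebra.Etale A B := h3
  exact ffe_pushout (A := A) (B := B) (A' := Polynomial A) (B' := Polynomial B) h1' h2' h3'

theorem away : S_AWAY := by
  intro A B _ _ φ a hφ
  let _ : Algebra A B := φ.toAlgebra
  obtain ⟨h1, h2, h3⟩ := hφ
  have h1' : Module.Finite A B := h1
  have h2' : Module.Free A B := h2
  have h3' : Algebra.Etale A B := h3
  let _ : Algebra (Localization.Away a) (Localization.Away (φ a)) :=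
    (Localization.awayMap φ a).toAlgebra
  have hT : IsScalarTower A (Localization.Away a) (Localization.Away (φ a)) :=
    IsScalarTower.of_algebraMap_eq fun x => by
      change algebraMap B (Localization.Away (φ a)) (φ x) = Localization.awayMap φ a _
      rw [Localization.awayMap, IsLocalization.Away.map, IsLocalization.map_eq]
  have hL : IsLocalization (Algebra.algebraMapSubmonoid B (Submonoid.powers a))
      (Localization.Away (φ a)) := by
    have h4 : Algebra.algebraMapSubmonoid B (Submonoid.powers a) = Submonoid.powers (φ a) :=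
      Submonoid.map_powers _ _
    rw [h4]
    infer_instance
  have hP : Algebra.IsPushout A (Localization.Away a) B (Localization.Away (φ a)) :=
    (Algebra.isPushout_of_isLocalization (R := A) (Submonoid.powers a) (Localization.Away a) B
      (Localization.Away (φ a))).symm
  exact ffe_pushout (A := A) (B := B) (A' := Localization.Away a) (B' := Localization.Away (φ a)) h1' h2' h3'

end Pool.Agent.P8H48.FR
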