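import Pool.Agent.P8H48.FR.Stm3
import Pool.Agent.P8H48.FR.Comp

set_option autoImplicit false

namespace Pool.Agent.P8H48.FR

attribute [local instance] MvPolynomial.algebraMvPolynomial in
theorem mvpoly (σ : Type) {A B : Type} [CommRing A] [CommRing B] (φ : A →+* B) (hφ : FFE φ) :
    FFE (MvPolynomial.map (σ := σ) φ) := by
  let _ : Algebra A B := φ.toAlgebra
  obtain ⟨h1, h2, h3⟩ := hφ
  have h1' : Module.Finite A B := h1
  have h2' : Module.Free A B := h2
  have h3' : Algebra.Etale A B := h3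
  exact ffe_pushout (A := A) (B := B) (A' := MvPolynomial σ A) (B' := MvPolynomial σ B) h1' h2' h3'

theorem ext : S_EXT := by
  intro hC k _ d n hdn A _ _ φ hφ
  let m := n - d
  have e0 : Fin n ≃ Fin m ⊕ Fin d :=
    (finCongr (by omega : n = m + d)).trans finSumFinEquiv.symm
  let e1 : MvPolynomial (Fin n) k ≃ₐ[k] MvPolynomial (Fin m ⊕ Fin d) k := MvPolynomial.renameEquiv k e0
  let e2 : MvPolynomial (Fin m ⊕ Fin d) k ≃ₐ[k] MvPolynomial (Fin m) (MvPolynomial (Fin d) k) :=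
    MvPolynomial.sumAlgEquiv k (Fin m) (Fin d)
  let e : MvPolynomial (Fin n) k ≃ₐ[k] MvPolynomial (Fin m) (MvPolynomial (Fin d) k) := e1.trans e2
  refine ⟨(MvPolynomial.mapAlgHom φ).comp e.toAlgHom, ?_⟩
  have h1 := hC.2 _ _ e.toRingEquiv
  have h2 := mvpoly (Fin m) φ.toRingHom hφ
  exact hC.1 _ _ _ _ _ h1 h2

end Pool.Agent.P8H48.FR
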