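import Pool.Agent.P8H48.FR.Gen
import Pool.Agent.Z125.UN.Emb

set_option autoImplicit false

namespace Pool.Agent.P8H48.FR

open MvPolynomial

section

variable (k : Type) [Field k] [PerfectField k] (B : Type) [CommRing B] [IsDomain B] [Algebra k B]
  [Algebra.FiniteType k B]

/-- a separating transcendence basis -/
theorem exists_sep (n : ℕ) (hn : ringKrullDim B ≤ n) :
    ∃ (d : ℕ) (x : Fin d → FractionRing B), d ≤ n ∧ AlgebraicIndependent k x ∧
      Algebra.IsSeparable (IntermediateField.adjoin k (Set.range x)) (FractionRing B) := by
  classical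
  have : Algebra.EssFiniteType B (FractionRing B) :=
    .of_isLocalization _ (nonZeroDivisors B)
  have : Algebra.EssFiniteType k (FractionRing B) := .comp _ B _
  obtain ⟨s, hs, hsep⟩ := exists_isTranscendenceBasis_and_isSeparable_of_perfectField k
    (FractionRing B)
  -- the cardinality of `s`
  obtain ⟨r, g, ginj, gint⟩ := exists_integral_inj_algHom_of_fg k B
  let _ : Algebra (MvPolynomial (Fin r) k) B := g.toRingHom.toAlgebra
  have : IsScalarTower k (MvPolynomial (Fin r) k) B := .of_algebraMap_eq fun a => (g.commutes a).symm
  have hint : Algebra.IsIntegral (MvPolynomial (Fin r) k) B := ⟨gint⟩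
  have hr : r ≤ n := by
    have h1 := (Pool.Agent.Z125.UN.dim_le_of_integral (R := MvPolynomial (Fin r) k) (S := B) ginj).trans hn
    rw [MvPolynomial.ringKrullDim_of_isNoetherianRing, ringKrullDim_eq_zero_of_field, zero_add,
      Nat.card_eq_fintype_card, Fintype.card_fin] at h1
    exact_mod_cast h1
  have : FaithfulSMul (MvPolynomial (Fin r) k) B :=
    (faithfulSMul_iff_algebraMap_injective _ _).mpr ginj
  have hb1 : IsTranscendenceBasis k (algebraMap (MvPolynomial (Fin r) k) B ∘ X) :=
    (IsTranscendenceBasis.mvPolynomial (Fin r) k).algebraMap_comp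
  have hal : Algebra.IsAlgebraic B (FractionRing B) :=
    (IsFractionRing.comap_isAlgebraic_iff (A := B) (K := FractionRing B)
      (C := FractionRing B)).mpr inferInstance
  have hb2 : IsTranscendenceBasis k (algebraMap B (FractionRing B) ∘
      (algebraMap (MvPolynomial (Fin r) k) B ∘ X)) := hb1.algebraMap_comp
  have hcard : s.card = r := by
    have h1 := IsTranscendenceBasis.cardinalMk_eq hs hb2
    rw [Cardinal.mk_fin, Cardinal.mk_coe_finset] at h1
    exact_mod_cast h1
  let x : Fin s.card → FractionRing B := fun i => (s.equivFin.symm i : FractionRing B)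
  have hx : AlgebraicIndependent k x := hs.1.comp s.equivFin.symm s.equivFin.symm.injective
  have hrange : Set.range x = (s : Set (FractionRing B)) := by
    ext y
    constructor
    · rintro ⟨i, rfl⟩
      exact (s.equivFin.symm i).2
    · intro hy
      exact ⟨s.equivFin ⟨y, hy⟩, by simp [x]⟩
  refine ⟨s.card, x, by omega, hx, ?_⟩
  rw [hrange]
  exact hsep

end

/-- the ring of an open subscheme of an open subscheme -/
theorem away_away {B : Type} [CommRing B] [IsDomain B] (f : B) (hf : f ≠ 0)
    (y : Localization.Away f) (hy : y ≠ 0) :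
    ∃ w : B, w ≠ 0 ∧ IsLocalization.Away w (Localization.Away y) := by
  have hpow : Submonoid.powers f ≤ nonZeroDivisors B := powers_le_nonZeroDivisors_of_noZeroDivisors hf
  have hinj : Function.Injective (algebraMap B (Localization.Away f)) := IsLocalization.injective _ hpow
  obtain ⟨⟨b, ⟨_, n, rfl⟩⟩, hb⟩ := IsLocalization.surj (Submonoid.powers f) y
  have hu : IsUnit (algebraMap B (Localization.Away f) (f ^ n)) := by
    rw [map_pow]
    exact (IsLocalization.Away.algebraMap_isUnit f).pow n
  have hb0 : b ≠ 0 := by
    rintro rfl
    have hb' : y * algebraMap B (Localization.Away f) (f ^ n) = algebraMap B _ 0 := hb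
    rw [map_zero] at hb'
    exact hy ((hu.mul_left_eq_zero).mp hb')
  have hass : Associated (algebraMap B (Localization.Away f) b) y := by
    obtain ⟨u, hu⟩ := hu
    have hb' : y * algebraMap B (Localization.Away f) (f ^ n) = algebraMap B _ b := hb
    refine ⟨u⁻¹, ?_⟩
    rw [← hb', ← hu, mul_assoc, Units.mul_inv, mul_one]
  exact ⟨f * b, mul_ne_zero hf hb0, IsLocalization.Away.mul_of_associated f b y hass⟩

theorem gen : S_GEN := by
  intro hC _ k _ _ B _ _ _ _ n hn
  classical
  obtain ⟨d, x, hd, hx, hsep⟩ := exists_sep k B n hn
  let L := FractionRing B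
  let R := MvPolynomial (Fin d) k
  -- common denominator
  obtain ⟨⟨f, hf⟩, hfx⟩ := IsLocalization.exist_integer_multiples_of_finite (nonZeroDivisors B) x
  choose a ha using hfx
  have hf0 : f ≠ 0 := nonZeroDivisors.ne_zero hf
  have hpow : Submonoid.powers f ≤ nonZeroDivisors B := powers_le_nonZeroDivisors_of_noZeroDivisors hf0
  let D := Localization.Away f
  have hDdom : IsDomain D := IsLocalization.isDomain_localization hpow
  have hunit : IsUnit (algebraMap B L f) :=
    isUnit_iff_ne_zero.mpr ((map_ne_zero_iff _ (IsFractionRing.injective B L)).mpr hf0)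
  let _ : Algebra D L := (IsLocalization.Away.lift (S := D) f hunit).toAlgebra
  have hTB : IsScalarTower B D L := IsScalarTower.of_algebraMap_eq fun y => by
    change _ = IsLocalization.Away.lift (S := D) f hunit (algebraMap B D y)
    rw [IsLocalization.Away.lift_eq]
  have hTk : IsScalarTower k D L := IsScalarTower.of_algebraMap_eq fun y => by
    rw [IsScalarTower.algebraMap_apply k B L, IsScalarTower.algebraMap_apply k B D,
      ← IsScalarTower.algebraMap_apply B D L]
  have hFD : IsFractionRing D L :=
    IsFractionRing.isFractionRing_of_isDomain_of_isLocalization (Submonoid.powers f) D L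
  have hftD : Algebra.FiniteType k D := Algebra.FiniteType.trans (S := B) inferInstance inferInstance
  -- the map from the polynomial ring
  let z : Fin d → D := fun i => IsLocalization.mk' D (a i) (⟨f, 1, pow_one f⟩ : Submonoid.powers f)
  have hz : ∀ i, algebraMap D L (z i) = x i := by
    intro i
    have h1 : algebraMap D L (z i) * algebraMap B L f = algebraMap B L (a i) := by
      have h0 : z i * algebraMap B D f = algebraMap B D (a i) :=
        IsLocalization.mk'_spec D (a i) (⟨f, 1, pow_one f⟩ : Submonoid.powers f)
      rw [IsScalarTower.algebraMap_apply B D L f, ← map_mul, h0,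
        ← IsScalarTower.algebraMap_apply B D L]
    have h2 : x i * algebraMap B L f = algebraMap B L (a i) := by
      rw [ha i, Algebra.smul_def, mul_comm]
    exact hunit.mul_right_cancel (h1.trans h2.symm)
  let φ : R →ₐ[k] D := aeval z
  let _ : Algebra R D := φ.toRingHom.toAlgebra
  have hTRD : IsScalarTower k R D := IsScalarTower.of_algebraMap_eq fun y => (φ.commutes y).symm
  let E := IntermediateField.adjoin k (Set.range x)
  let _ : Algebra R E := (hx.aevalEquivField.toRingHom.comp (algebraMap R (FractionRing R))).toAlgebra
  let _ : Algebra R L := ((algebraMap E L).comp (algebraMap R E)).toAlgebra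
  have hTREL : IsScalarTower R E L := IsScalarTower.of_algebraMap_eq fun _ => rfl
  have hRL : ∀ q : R, algebraMap R L q = aeval x q := fun q => hx.aevalEquivField_algebraMap_apply_coe q
  have hRDL : ∀ q : R, algebraMap D L (φ q) = aeval x q := by
    intro q
    have h3 : ((IsScalarTower.toAlgHom k D L).comp φ) = aeval x := by
      apply MvPolynomial.algHom_ext
      intro i
      rw [AlgHom.comp_apply, aeval_X, aeval_X]
      exact hz i
    exact DFunLike.congr_fun h3 q
  have hTRDL : IsScalarTower R D L := IsScalarTower.of_algebraMap_eq fun q => by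
    rw [hRL]
    exact (hRDL q).symm
  have hRinj : Function.Injective (algebraMap R L) := by
    intro u v huv
    rw [hRL, hRL] at huv
    exact hx huv
  have hinj : Function.Injective (algebraMap R D) := by
    intro u v huv
    apply hRinj
    rw [IsScalarTower.algebraMap_apply R D L, IsScalarTower.algebraMap_apply R D L, huv]
  have hFE : IsFractionRing R E :=
    IsLocalization.isLocalization_of_algEquiv (nonZeroDivisors R)
      (AlgEquiv.ofRingEquiv (f := hx.aevalEquivField.toRingEquiv) fun _ => rfl :
        FractionRing R ≃ₐ[R] E)
  have halgL : Algebra.IsAlgebraic R L :=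
    (IsFractionRing.comap_isAlgebraic_iff (A := R) (K := E) (C := L)).mpr inferInstance
  have hDL : Function.Injective (algebraMap D L) := IsFractionRing.injective D L
  have halg : Algebra.IsAlgebraic R D := by
    have : FaithfulSMul D L := (faithfulSMul_iff_algebraMap_injective _ _).mpr hDL
    exact Algebra.IsAlgebraic.tower_bot_of_injective (R := R) (S := D) (A := L) hDL
  have hft : Algebra.FiniteType R D := Algebra.FiniteType.of_restrictScalars_finiteType k R D
  have het1 : Algebra.FormallyEtale R E := Algebra.FormallyEtale.of_isLocalization (nonZeroDivisors R)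
  have het2 : Algebra.FormallyEtale E L := Algebra.FormallyEtale.of_isSeparable E L
  have het3 : Algebra.FormallyEtale R L := Algebra.FormallyEtale.comp R E L
  have het4 : Algebra.FormallyEtale R (FractionRing D) :=
    Algebra.FormallyEtale.of_equiv
      ((IsLocalization.algEquiv (nonZeroDivisors D) L (FractionRing D)).restrictScalars R)
  obtain ⟨g, hg0, hg⟩ := gen_ffe (A := R) (D := D) hinj het4
  refine ⟨d, hd, g, hg0, fun h hh0 hgh => ?_⟩
  have h5 : algebraMap R D h ≠ 0 := (map_ne_zero_iff _ hinj).mpr hh0
  obtain ⟨w, hw0, hw⟩ := away_away f hf0 (algebraMap R D h) h5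
  let e : Localization.Away w ≃ₐ[B] Localization.Away (algebraMap R D h) :=
    IsLocalization.algEquiv (Submonoid.powers w) (Localization.Away w)
      (Localization.Away (algebraMap R D h))
  have h6 := hC.1 _ _ _ _ _ (hg h hh0 hgh) (hC.2 _ _ e.symm.toRingEquiv)
  refine ⟨w, hw0, ⟨e.symm.toRingEquiv.toRingHom.comp (Localization.awayMap (algebraMap R D) h), ?_⟩, h6⟩
  intro c
  have h7 : Localization.awayMap (algebraMap R D) h (algebraMap k (Localization.Away h) c) =
      algebraMap k (Localization.Away (algebraMap R D h)) c := by
    rw [IsScalarTower.algebraMap_apply k R (Localization.Away h), Localization.awayMap,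
      IsLocalization.Away.map, IsLocalization.map_eq, ← IsScalarTower.algebraMap_apply k R D,
      ← IsScalarTower.algebraMap_apply k D]
  change e.symm (Localization.awayMap (algebraMap R D) h (algebraMap k (Localization.Away h) c)) = _
  rw [h7]
  have h8 : algebraMap k (Localization.Away (algebraMap R D h)) c =
      algebraMap B (Localization.Away (algebraMap R D h)) (algebraMap k B c) := by
    rw [← IsScalarTower.algebraMap_apply k B]
  rw [h8, e.symm.commutes, ← IsScalarTower.algebraMap_apply]

end Pool.Agent.P8H48.FR
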