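import Pool.Agent.P8H48.FR.Stm2

set_option autoImplicit false

open CategoryTheory AlgebraicGeometry MvPolynomial Pool.Agent.Y116.UV Pool.Agent.Z125.UN

namespace Pool.Agent.P8H48.FR

theorem pold : S_POLD := by
  intro k _ sep P hP A _ _ _ n h
  have h1 : IsOpenImmersion (𝟙 (aff k A) : aff k A ⟶ aff k A).left :=
    inferInstanceAs (IsOpenImmersion (𝟙 (aff k A).left))
  have h2 : Set.range (𝟙 (aff k A) : aff k A ⟶ aff k A).left =
      {x : PrimeSpectrum A | ∃ l, f1 A n l ∉ x.asIdeal} := by
    have h1 : Set.range (𝟙 (aff k A) : aff k A ⟶ aff k A).left = Set.univ := Set.range_id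
    have h2 : {x : PrimeSpectrum A | ∃ l, f1 A n l ∉ x.asIdeal} = Set.univ := by
      rw [Set.eq_univ_iff_forall]
      intro x
      exact ⟨0, fun h => x.isPrime.ne_top ((Ideal.eq_top_iff_one _).mpr h)⟩
    exact h1.trans h2.symm
  have : Algebra.FiniteType k (MvPolynomial (Fin n) A) :=
    Algebra.FiniteType.trans (S := A) inferInstance inferInstance
  have h4 : P (aff k (Jou (f1 A n))) :=
    iso_alg hP.toUni ((jouOne A n).restrictScalars k).symm h
  exact hP.jouanolou A (n + 1) (f1 A n) (aff k A) (𝟙 _) h1 h2 h4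

theorem dimf : S_DIMF := by
  intro k _ d A _ _ _
  have h1 : ringKrullDim (MvPolynomial (Fin d) k) = d := by
    rw [MvPolynomial.ringKrullDim_of_isNoetherianRing, ringKrullDim_eq_zero_of_field, zero_add,
      Nat.card_eq_fintype_card, Fintype.card_fin]
  rw [← h1]
  have : Algebra.IsIntegral (MvPolynomial (Fin d) k) A := inferInstance
  refine Order.krullDim_le_of_strictMono
    (fun q : PrimeSpectrum A => PrimeSpectrum.comap (algebraMap (MvPolynomial (Fin d) k) A) q) ?_
  intro a b hab
  exact Ideal.IsIntegral.comap_lt_comap (show a.asIdeal < b.asIdeal from hab)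

end Pool.Agent.P8H48.FR
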