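import Pool.Agent.P8H48.FR.Main
import Pool.Agent.P8H48.FR.Comp
import Pool.Agent.P8H48.FR.Ext
import Pool.Agent.P8H48.FR.Gen2
import Pool.Agent.P8H48.FR.Pold
import Pool.Agent.P8H40.FR.Ind
import Pool.Agent.P8H40.FR.Trk
import Pool.Agent.P8H40.FR.Cop
import Pool.Agent.P8H40.FR.Spr
import Pool.Agent.P8H40.FR.Loc
import Pool.Agent.P8H44.FR.Clo
import Pool.Agent.P8H44.FR.Elb
import Pool.Agent.P8H44.FR.Frob
import Pool.Agent.P8H71.FR.Ela
import Pool.Agent.P8H71.FR.Bas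
import Pool.Agent.P8H90.FR.Unc
import Pool.Agent.P8H90.FR.Ksum
import Pool.Agent.P8H90.FR.Hasm
import Pool.Agent.P8H76.FR.Hyp

/-!
# Frobenius systems: the packages
-/

set_option autoImplicit false

open CategoryTheory AlgebraicGeometry Pool.Agent.Y116.UV Pool.Agent.Z125.UN Pool.Agent.R904.TR
open Pool.Agent.R904.CU

namespace Pool.Agent.P8H48.FR

theorem pk : Pk where
  comp := comp
  poly := poly
  away := away
  trk := Pool.Agent.P8H40.FR.trk
  cop := Pool.Agent.P8H40.FR.cop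
  spr := Pool.Agent.P8H40.FR.spr
  loc := Pool.Agent.P8H40.FR.loc
  ind := Pool.Agent.P8H40.FR.ind
  gen := gen
  bas := Pool.Agent.P8H71.FR.bas
  frob := Pool.Agent.P8H44.FR.frob
  clo := Pool.Agent.P8H44.FR.clo
  ela := Pool.Agent.P8H71.FR.ela
  elb := Pool.Agent.P8H44.FR.elb
  elc := Pool.Agent.P8H71.FR.elc
  pold := pold
  dimf := dimf
  ext := ext

variable (K : KThy) (p : ℕ) [Fact p.Prime]

theorem main_dim (d : ℕ) : List.TFAE [DimFin K p d, RegFin K p d, WordFin K p d, AddFin K p d] :=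
  dim_tfae K p pk Pool.Agent.P8H90.FR.ksum Pool.Agent.P8H76.FR.hyp Pool.Agent.P8H90.FR.hasm d

theorem main_all : List.TFAE [BassP K p, AllP K p, ∀ d, WordFin K p d, ∀ d, AddFin K p d] :=
  all_tfae K p pk Pool.Agent.P8H90.FR.ksum Pool.Agent.P8H76.FR.hyp Pool.Agent.P8H90.FR.hasm

theorem main_unc (n r : ℕ) (w : Fin r → Fin n × Fin n) (hw : ∀ k, (w k).1 ≠ (w k).2) :
    K.Fin (sp (Frob p (prodW (ZMod p) (genW w hw)))) :=
  Pool.Agent.P8H90.FR.unc p False (fun X : Sch (ZMod p) => K.Fin X.left)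
    (bnd K False (fin_field K (ZMod p))) n r w hw

theorem main_etale (d n : ℕ) (w : List (Let n d)) :
    Algebra.Etale (MvPolynomial (Fin d) (ZMod p)) (Frob p (prodW (ZMod p) w)) ∧
      Module.Finite (MvPolynomial (Fin d) (ZMod p)) (Frob p (prodW (ZMod p) w)) :=
  pk.frob p _ n _ (by rw [det_prodW]; exact isUnit_one)

end Pool.Agent.P8H48.FR
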