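import Pool.Agent.P8H48.FR.Stm2
import Pool.Agent.P8H48.FR.Stm3

/-!
# Frobenius systems over affine space: assembly
-/

set_option autoImplicit false

open CategoryTheory AlgebraicGeometry Pool.Agent.Y116.UV Pool.Agent.Z125.UN Pool.Agent.R904.TR

namespace Pool.Agent.P8H48.FR

/-- The algebra packages together. -/
structure Pk : Prop where
  comp : S_COMP
  poly : S_POLY
  away : S_AWAY
  trk : S_TRK
  cop : S_COP
  spr : S_SPR
  loc : S_LOC
  ind : S_IND
  gen : S_GEN
  bas : S_BAS
  frob : S_FROB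
  clo : S_CLO
  ela : S_ELA
  elb : S_ELB
  elc : S_ELC
  pold : S_POLD
  dimf : S_DIMF
  ext : S_EXT

/-- Every domain of dimension at most `n` has a localization which is finite, free and etale over a polynomial
ring. -/
theorem ked (H : Pk) (p : ℕ) [Fact p.Prime] (k : Type) [Field k] [PerfectField k] [CharP k p] (B : Type)
    [CommRing B] [IsDomain B] [Algebra k B] [Algebra.FiniteType k B] (n : ℕ) (hn : ringKrullDim B ≤ n) :
    ∃ d : ℕ, d ≤ n ∧ ∃ w : B, w ≠ 0 ∧ ∃ φ : MvPolynomial (Fin d) k →ₐ[k] Localization.Away w,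
      FFE φ.toRingHom := by
  obtain ⟨d, hd, g, hg, hG⟩ := H.gen H.comp H.away k B n hn
  obtain ⟨h, hh, hgh, ψ, hψ⟩ := H.ind H.comp H.poly H.trk H.cop H.spr H.loc p k d g hg
  obtain ⟨w, hw, φ, hφ⟩ := hG h hh hgh
  exact ⟨d, hd, w, hw, φ.comp ψ, H.comp.1 _ _ _ _ _ hψ hφ⟩

theorem det_prodW (k : Type) [CommRing k] {n d : ℕ} (w : List (Let n d)) : (prodW k w).det = 1 := by
  induction w with
  | nil => simp [prodW]
  | cons l w ih =>
    have h1 : prodW k (l :: w) = l.mat k * prodW k w := by simp [prodW]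
    rw [h1, Matrix.det_mul, ih, mul_one, Let.mat, Matrix.det_transvection_of_ne _ _ l.ne]

variable {p : ℕ} [hp : Fact p.Prime] {sep : Prop} {P : Sch (ZMod p) → Prop}

/-- finite free etale algebras over the polynomial ring in `n` variables -/
theorem p_ffe (H : Pk) (hB : Bnd sep P) (hS : Summ P) {n : ℕ}
    (hW : ∀ (m : ℕ) (w : List (Let m n)), P (aff (ZMod p) (Frob p (prodW (ZMod p) w))))
    (A : Type) [CommRing A] [Algebra (ZMod p) A]
    (φ : MvPolynomial (Fin n) (ZMod p) →ₐ[ZMod p] A) (hφ : FFE φ.toRingHom) : P (aff (ZMod p) A) := by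
  let B := MvPolynomial (Fin n) (ZMod p)
  let _ := φ.toRingHom.toAlgebra
  obtain ⟨h1, h2, h3⟩ := hφ
  have h1' : Module.Finite B A := h1
  have h2' : Module.Free B A := h2
  have h3' : Algebra.Etale B A := h3
  have hc : CharP B p := inferInstance
  let e := Module.finBasis B A
  obtain ⟨N, hN, hNe⟩ := H.bas p B A _ e
  obtain ⟨m, s, w, hw1, hw2⟩ := H.elc H.ela H.elb p _ n N hN
  let M := prodW (ZMod p) w
  have hw1' : ∀ i j, M (s i) (s j) = N i j := hw1
  have hw2' : ∀ i j, j ∉ Set.range s → M (s i) j = 0 ∧ M j (s i) = 0 := hw2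
  have hM : IsUnit M.det := by
    rw [show M.det = 1 from det_prodW (ZMod p) w]
    exact isUnit_one
  obtain ⟨hR1, hR2⟩ := H.frob p B m M hM
  classical
  -- the values of the variables
  let v : Fin m → A := fun j => if h : ∃ i, s i = j then e h.choose else 0
  have hv1 : ∀ i, v (s i) = e i := by
    intro i
    have h : ∃ i', s i' = s i := ⟨i, rfl⟩
    simp only [v, dif_pos h]
    rw [s.injective h.choose_spec]
  have hv2 : ∀ j, j ∉ Set.range s → v j = 0 := by
    intro j hj
    simp only [v]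
    rw [dif_neg]
    rintro ⟨i, hi⟩
    exact hj ⟨i, hi⟩
  have hsum : ∀ (c : Fin m → B), ∑ j, c j • v j = ∑ i, c (s i) • e i := by
    intro c
    have h4 : ∑ j ∈ Finset.univ.image s, c j • v j = ∑ j, c j • v j := by
      apply Finset.sum_subset (Finset.subset_univ _)
      intro j _ hj
      rw [hv2 j, smul_zero]
      rintro ⟨i, hi⟩
      exact hj (Finset.mem_image.mpr ⟨i, Finset.mem_univ _, hi⟩)
    rw [← h4, Finset.sum_image (fun a _ b _ h => s.injective h)]
    exact Finset.sum_congr rfl fun i _ => by rw [hv1]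
  have hrel : ∀ i, v i ^ p = ∑ j, M i j • v j := by
    intro i
    rw [hsum]
    by_cases hi : i ∈ Set.range s
    · obtain ⟨i, rfl⟩ := hi
      rw [hv1, hNe]
      exact Finset.sum_congr rfl fun j _ => congrArg (fun c : B => c • e j) (hw1' i j).symm
    · rw [hv2 i hi, zero_pow hp.out.ne_zero]
      symm
      exact Finset.sum_eq_zero fun j _ => by rw [(hw2' j i hi).2, zero_smul]
  let f : Frob p M →ₐ[B] A := Ideal.Quotient.liftₐ _ (MvPolynomial.aeval v) (by
    intro a ha
    have h5 : Ideal.span (Set.range fun i : Fin m =>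
        MvPolynomial.X i ^ p - ∑ j, MvPolynomial.C (M i j) * MvPolynomial.X j) ≤
        RingHom.ker (MvPolynomial.aeval (R := B) v) := by
      rw [Ideal.span_le]
      rintro _ ⟨i, rfl⟩
      rw [SetLike.mem_coe, RingHom.mem_ker, map_sub, map_pow, MvPolynomial.aeval_X, map_sum, sub_eq_zero,
        hrel]
      refine Finset.sum_congr rfl fun j _ => ?_
      rw [map_mul, MvPolynomial.aeval_X, MvPolynomial.algHom_C, Algebra.smul_def]
    exact h5 ha)
  have hf : Function.Surjective f := by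
    intro a
    refine ⟨Ideal.Quotient.mk _ (∑ i, MvPolynomial.C (e.repr a i) * MvPolynomial.X (s i)), ?_⟩
    have h6 : f (Ideal.Quotient.mk _ (∑ i, MvPolynomial.C (e.repr a i) * MvPolynomial.X (s i))) =
        MvPolynomial.aeval v (∑ i, MvPolynomial.C (e.repr a i) * MvPolynomial.X (s i)) := rfl
    rw [h6, map_sum]
    conv_rhs => rw [← e.sum_repr a]
    refine Finset.sum_congr rfl fun j _ => ?_
    rw [map_mul, MvPolynomial.aeval_X, MvPolynomial.algHom_C, Algebra.smul_def, hv1]
  have hnoeth : IsNoetherianRing (Frob p M) := inferInstance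
  obtain ⟨ε, hε, hker⟩ := H.clo B (Frob p M) A f hf
  have hft : Algebra.FiniteType (ZMod p) (Frob p M) := inferInstance
  have h7 := hS (Frob p M) ε hε (hW m w)
  let E : (Frob p M ⧸ Ideal.span {ε}) ≃+* A :=
    (Ideal.quotEquivOfEq hker.symm).trans (RingHom.quotientKerEquivOfSurjective (f := f.toRingHom) hf)
  let E' : (Frob p M ⧸ Ideal.span {ε}) ≃ₐ[ZMod p] A := AlgEquiv.ofRingEquiv (f := E) (by
    intro x
    have h8 : E.toRingHom.comp (algebraMap (ZMod p) _) = algebraMap (ZMod p) A :=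
      Subsingleton.elim _ _
    exact DFunLike.congr_fun h8 x)
  exact iso_alg hB.toUni E' h7

/-- affine schemes of dimension at most `n` -/
theorem p_affine (H : Pk) (hB : Bnd sep P) (hS : Summ P) {n : ℕ}
    (hW : ∀ (m : ℕ) (w : List (Let m n)), P (aff (ZMod p) (Frob p (prodW (ZMod p) w))))
    (A : Type) [CommRing A] [Algebra (ZMod p) A] [Algebra.FiniteType (ZMod p) A]
    (hA : ringKrullDim A ≤ n) : P (aff (ZMod p) A) := by
  refine noeth hB (fun B _ _ h => p_empty hB B h) fun q hq => ?_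
  have hd : ringKrullDim (A ⧸ q) ≤ n := (ringKrullDim_quotient_le q).trans hA
  obtain ⟨d, hdn, w, hw, φ, hφ⟩ := ked H p (ZMod p) (A ⧸ q) n hd
  refine ⟨w, hw, ?_⟩
  obtain ⟨ψ, hψ⟩ := H.ext H.comp (ZMod p) d n hdn _ φ hφ
  have : Algebra.FiniteType (ZMod p) (Localization.Away w) :=
    Algebra.FiniteType.trans (S := A ⧸ q) inferInstance inferInstance
  exact H.pold (ZMod p) sep P hB _ _ (p_ffe H hB hS hW _ ψ hψ)

end Pool.Agent.P8H48.FR
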