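import Pool.Agent.P8H48.FR.Stm

set_option autoImplicit false

namespace Pool.Agent.P8H48.FR

section

variable {A D : Type} [CommRing A] [IsDomain A] [CommRing D] [Algebra A D]

/-- up to powers of `g` a finitely generated algebraic algebra is a finitely generated module -/
theorem fin_mult [Algebra.FiniteType A D] [Algebra.IsAlgebraic A D] :
    ∃ (g : A) (e : Finset D), g ≠ 0 ∧ ∀ x : D, ∃ N : ℕ, g ^ N • x ∈ Submodule.span A (e : Set D) := by
  classical
  obtain ⟨s, hs⟩ := (inferInstance : Algebra.FiniteType A D).out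
  have hal : ∀ x : D, ∃ p : Polynomial A, p ≠ 0 ∧ Polynomial.aeval x p = 0 := fun x =>
    Algebra.IsAlgebraic.isAlgebraic (R := A) x
  choose p hp0 hpx using hal
  let g : A := ∏ x ∈ s, (p x).leadingCoeff
  have hg0 : g ≠ 0 := Finset.prod_ne_zero_iff.mpr fun x _ => Polynomial.leadingCoeff_ne_zero.2 (hp0 x)
  let T : Set D := (fun x => g • x) '' (s : Set D)
  have hTf : T.Finite := (Finset.finite_toSet s).image _
  have hTi : ∀ y ∈ T, IsIntegral A y := by
    rintro _ ⟨x, hx, rfl⟩
    have h1 : IsIntegral A ((p x).leadingCoeff • x) := isIntegral_leadingCoeff_smul (p x) x (hpx x)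
    have h2 : g = (∏ y ∈ s.erase x, (p y).leadingCoeff) * (p x).leadingCoeff :=
      (Finset.prod_erase_mul s (fun y => (p y).leadingCoeff) hx).symm
    change IsIntegral A (g • x)
    rw [h2, mul_smul]
    exact h1.smul _
  obtain ⟨e, he⟩ := fg_adjoin_of_finite hTf hTi
  refine ⟨g, e, hg0, ?_⟩
  rw [he]
  intro x
  have hx : x ∈ Algebra.adjoin A (s : Set D) := by rw [hs]; trivial
  change ∃ N : ℕ, g ^ N • x ∈ Algebra.adjoin A T
  induction hx using Algebra.adjoin_induction with
  | mem x hx => exact ⟨1, by rw [pow_one]; exact Algebra.subset_adjoin ⟨x, hx, rfl⟩⟩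
  | algebraMap r => exact ⟨0, by rw [pow_zero, one_smul]; exact Subalgebra.algebraMap_mem _ r⟩
  | add x y _ _ hx hy =>
    obtain ⟨N, hN⟩ := hx
    obtain ⟨M, hM⟩ := hy
    refine ⟨N + M, ?_⟩
    have h3 : g ^ (N + M) • (x + y) = g ^ M • (g ^ N • x) + g ^ N • (g ^ M • y) := by
      rw [smul_add, smul_smul, smul_smul]
      congr 2 <;> ring
    rw [h3]
    exact Subalgebra.add_mem _ (Subalgebra.smul_mem _ hN _) (Subalgebra.smul_mem _ hM _)
  | mul x y _ _ hx hy =>
    obtain ⟨N, hN⟩ := hx
    obtain ⟨M, hM⟩ := hy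
    refine ⟨N + M, ?_⟩
    have h3 : g ^ (N + M) • (x * y) = (g ^ N • x) * (g ^ M • y) := by
      rw [smul_mul_smul_comm, pow_add]
    rw [h3]
    exact Subalgebra.mul_mem _ hN hM

/-- a basis up to multiples -/
theorem basis_mult [Algebra.FiniteType A D] [Algebra.IsAlgebraic A D] :
    ∃ (g : A) (ι : Type) (_ : Finite ι) (b : ι → D), g ≠ 0 ∧ LinearIndependent A b ∧
      ∀ x : D, ∃ N : ℕ, g ^ N • x ∈ Submodule.span A (Set.range b) := by
  classical
  obtain ⟨g, e, hg, he⟩ := fin_mult (A := A) (D := D)
  obtain ⟨s, hs, hs2⟩ := exists_maximal_linearIndepOn A (fun i : e => (i : D))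
  choose a ha0 ha using fun i : {i : e // i ∉ s} => hs2 i.1 i.2
  let c : A := ∏ i, a i
  have hc : c ≠ 0 := Finset.prod_ne_zero_iff.mpr fun i _ => ha0 i
  have hspan : ∀ y ∈ Submodule.span A (e : Set D),
      c • y ∈ Submodule.span A ((fun i : e => (i : D)) '' s) := by
    intro y hy
    induction hy using Submodule.span_induction with
    | mem y hy =>
      by_cases h : (⟨y, hy⟩ : e) ∈ s
      · exact Submodule.smul_mem _ _ (Submodule.subset_span ⟨⟨y, hy⟩, h, rfl⟩)
      · have h1 : c = (∏ i ∈ Finset.univ.erase (⟨⟨y, hy⟩, h⟩ : {i : e // i ∉ s}), a i) *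
            a ⟨⟨y, hy⟩, h⟩ := (Finset.prod_erase_mul Finset.univ a (Finset.mem_univ _)).symm
        rw [h1, mul_smul]
        exact Submodule.smul_mem _ _ (ha ⟨⟨y, hy⟩, h⟩)
    | zero => rw [smul_zero]; exact Submodule.zero_mem _
    | add x y _ _ hx hy => rw [smul_add]; exact Submodule.add_mem _ hx hy
    | smul r x _ hx => rw [smul_comm]; exact Submodule.smul_mem _ _ hx
  refine ⟨c * g, s, inferInstance, fun i => ((i : e) : D), mul_ne_zero hc hg, hs, fun x => ?_⟩
  obtain ⟨N, hN⟩ := he x
  refine ⟨N + 1, ?_⟩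
  have h2 : (c * g) ^ (N + 1) • x = (c ^ N * g) • (c • (g ^ N • x)) := by
    rw [smul_smul, smul_smul]
    congr 1
    ring
  rw [h2]
  have h3 := hspan _ hN
  have h4 : ((fun i : e => (i : D)) '' s) = Set.range fun i : s => ((i : e) : D) := by
    ext y
    simp
  rw [h4] at h3
  exact Submodule.smul_mem _ _ h3

end

/-- generic finiteness, freeness and etaleness -/
theorem gen_ffe {A D : Type} [CommRing A] [IsDomain A] [IsNoetherianRing A] [CommRing D] [IsDomain D]
    [Algebra A D] [Algebra.FiniteType A D] [Algebra.IsAlgebraic A D]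
    (hinj : Function.Injective (algebraMap A D)) (h2 : Algebra.FormallyEtale A (FractionRing D)) :
    ∃ g : A, g ≠ 0 ∧ ∀ h : A, h ≠ 0 → g ∣ h → FFE (Localization.awayMap (algebraMap A D) h) := by
  classical
  have hfp : Algebra.FinitePresentation A D := Algebra.FinitePresentation.of_finiteType.mp inferInstance
  have hbot : (⊥ : Ideal D).IsPrime := Ideal.isPrime_bot
  have het : Algebra.IsEtaleAt A (⊥ : Ideal D) := by
    have hl : IsLocalization (⊥ : Ideal D).primeCompl (FractionRing D) := by
      have h5 : (⊥ : Ideal D).primeCompl = nonZeroDivisors D := by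
        ext x
        rw [mem_nonZeroDivisors_iff_ne_zero]
        rfl
      rw [h5]
      infer_instance
    exact Algebra.FormallyEtale.of_equiv ((IsLocalization.algEquiv (⊥ : Ideal D).primeCompl
      (FractionRing D) (Localization.AtPrime (⊥ : Ideal D))).restrictScalars A)
  obtain ⟨w, hw, hwe⟩ := Algebra.exists_etale_of_isEtaleAt (R := A) (⊥ : Ideal D)
  have hw0 : w ≠ 0 := fun h => hw (by rw [h]; exact Ideal.zero_mem _)
  obtain ⟨c, hc0, hwc⟩ := (Algebra.IsAlgebraic.isAlgebraic (R := A) w).exists_nonzero_dvd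
    (mem_nonZeroDivisors_of_ne_zero hw0)
  obtain ⟨g, ι, hι, b, hg0, hli, hsp⟩ := basis_mult (A := A) (D := D)
  refine ⟨c * g, mul_ne_zero hc0 hg0, fun h hh0 hdvd => ?_⟩
  have hch : c ∣ h := (dvd_mul_right c g).trans hdvd
  have hgh : g ∣ h := (dvd_mul_left g c).trans hdvd
  let Ah := Localization.Away h
  let Dh := Localization.Away (algebraMap A D h)
  let _ : Algebra Ah Dh := (Localization.awayMap (algebraMap A D) h).toAlgebra
  have hT : IsScalarTower A Ah Dh :=
    IsScalarTower.of_algebraMap_eq fun x => by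
      change algebraMap A Dh x = Localization.awayMap (algebraMap A D) h _
      rw [Localization.awayMap, IsLocalization.Away.map, IsLocalization.map_eq]
      rfl
  have hL : IsLocalization (Algebra.algebraMapSubmonoid D (Submonoid.powers h)) Dh := by
    have h4 : Algebra.algebraMapSubmonoid D (Submonoid.powers h) =
        Submonoid.powers (algebraMap A D h) := Submonoid.map_powers _ _
    rw [h4]
    infer_instance
  have hhu : IsUnit (algebraMap A Ah h) := IsLocalization.Away.algebraMap_isUnit h
  -- the basis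
  have hli2 : LinearIndependent Ah (algebraMap D Dh ∘ b) :=
    LinearIndependent.localization_localization Ah (Submonoid.powers h) Dh hli
  have hsp2 : ⊤ ≤ Submodule.span Ah (Set.range (algebraMap D Dh ∘ b)) := by
    intro z _
    obtain ⟨⟨y, ⟨_, n, rfl⟩⟩, hy⟩ := IsLocalization.surj (Submonoid.powers (algebraMap A D h)) z
    obtain ⟨N, hN⟩ := hsp y
    obtain ⟨q, hq⟩ := hgh
    have hN' : h ^ N • y ∈ Submodule.span A (Set.range b) := by
      rw [hq, mul_comm g q, mul_pow, mul_smul]
      exact Submodule.smul_mem _ _ hN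
    have h6 : algebraMap D Dh (h ^ N • y) ∈ Submodule.span Ah (Set.range (algebraMap D Dh ∘ b)) := by
      have h7 : ∀ v ∈ Submodule.span A (Set.range b),
          algebraMap D Dh v ∈ Submodule.span Ah (Set.range (algebraMap D Dh ∘ b)) := by
        intro v hv
        induction hv using Submodule.span_induction with
        | mem v hv =>
          obtain ⟨i, rfl⟩ := hv
          exact Submodule.subset_span ⟨i, rfl⟩
        | zero => rw [map_zero]; exact Submodule.zero_mem _
        | add x y _ _ hx hy => rw [map_add]; exact Submodule.add_mem _ hx hy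
        | smul r x _ hx =>
          rw [Algebra.smul_def, map_mul, ← IsScalarTower.algebraMap_apply A D Dh,
            IsScalarTower.algebraMap_apply A Ah Dh, ← Algebra.smul_def]
          exact Submodule.smul_mem _ _ hx
      exact h7 _ hN'
    obtain ⟨u, hu⟩ := hhu
    have h8 : z = ((↑(u⁻¹) : Ah) ^ (n + N)) • algebraMap D Dh (h ^ N • y) := by
      have h9 : algebraMap D Dh (h ^ N • y) = (algebraMap A Ah h) ^ (n + N) • z := by
        rw [Algebra.smul_def, map_mul, map_pow, map_pow, ← IsScalarTower.algebraMap_apply A D Dh]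
        have h10 : algebraMap D Dh y = z * algebraMap D Dh (algebraMap A D h ^ n) := hy.symm
        rw [h10, map_pow, ← IsScalarTower.algebraMap_apply A D Dh, Algebra.smul_def, map_pow,
          ← IsScalarTower.algebraMap_apply A Ah Dh]
        ring
      rw [h9, ← hu, smul_smul, ← mul_pow, Units.inv_mul, one_pow, one_smul]
    rw [h8]
    exact Submodule.smul_mem _ _ h6
  let B : Module.Basis ι Ah Dh := Module.Basis.mk hli2 hsp2
  -- etaleness
  have h11 : Algebra.FormallyEtale A Dh := by
    rw [← Algebra.basicOpen_subset_etaleLocus_iff]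
    have h12 := (Algebra.basicOpen_subset_etaleLocus_iff (R := A) (A := D) (f := w)).mpr inferInstance
    refine subset_trans ?_ h12
    obtain ⟨q, hq⟩ := hwc.trans (map_dvd (algebraMap A D) hch)
    rw [hq]
    exact PrimeSpectrum.basicOpen_mul_le_left w q
  have h13 : Algebra.FormallyEtale Ah Dh := Algebra.FormallyEtale.localization_base (Submonoid.powers h)
  have hfin : Module.Finite Ah Dh := Module.Finite.of_basis B
  have hnoeth : IsNoetherianRing Ah := IsLocalization.isNoetherianRing (Submonoid.powers h) _ inferInstance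
  have hfp : Algebra.FinitePresentation Ah Dh :=
    Algebra.FinitePresentation.of_finiteType.mp inferInstance
  exact ⟨hfin, Module.Free.of_basis B, ⟨h13, hfp⟩⟩

end Pool.Agent.P8H48.FR
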