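import Pool.Agent.P8H48.FR.Stm
import Pool.Agent.R904.TR.Res
import Pool.Agent.Z125.UN.Dim2

/-!
# Frobenius systems over affine space: the geometric packages
-/

set_option autoImplicit false

open CategoryTheory AlgebraicGeometry Pool.Agent.Y116.UV Pool.Agent.Z125.UN Pool.Agent.R904.TR

namespace Pool.Agent.P8H48.FR

/-- The property passes to open and closed subschemes of affine schemes. -/
def Summ {k : Type} [Field k] (P : Sch k → Prop) : Prop :=
  ∀ (R : Type) [CommRing R] [Algebra k R] [Algebra.FiniteType k R] (e : R), IsIdempotentElem e →
    P (aff k R) → P (aff k (R ⧸ Ideal.span {e}))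

/-- the word `E_{i_1 j_1}(y_1) ⋯ E_{i_r j_r}(y_r)` in independent variables -/
def genW {n r : ℕ} (w : Fin r → Fin n × Fin n) (hw : ∀ k, (w k).1 ≠ (w k).2) : List (Let n r) :=
  List.ofFn fun k => ⟨(w k).1, (w k).2, hw k, some k⟩

/-- KSUM. Let `X = Spec R`, `Z = Spec (R / e)`, `Z' = Spec (R / (1 - e))`; `Z'` is isomorphic to the open
complement of `Z` and conversely. There are two localization sequences, for `(Z, X, Z')` and for `(Z', X, Z)`. By
induction on `n` both `G n Z` and `G n Z'` are finitely generated: for `n = 0` by the surjectivity of `b 0`,
and from `G (n + 1) X → G (n + 1) Z → G n Z'` for `n + 1`. (See `Pool.Agent.R904.TR.bnd` for the use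
of `K.localization`, and `Pool.Agent.Y116.UV.triple_away`, `Pool.Agent.Y116.UV.ft_aff`.) -/
def S_KSUM : Prop :=
  ∀ (K : KThy) (p : ℕ) [Fact p.Prime], Summ fun X : Sch (ZMod p) => K.Fin X.left

/-- UNC (unconditional part; any proof is welcome). `V_w` for independent variables is a union of
products of lines and multiplicative groups. Plan: more generally consider states: for each coordinate `i` a
pair `(c_i, t_i)` (current value, target) of one of the forms: `c_i = t_i = v_i` with `v_i` a free variable,
or zero, or a unit variable; or `c_i` and `t_i` independent, each a free variable, zero or a unit variable. Let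
`A` be the polynomial ring over `F_p` in these variables (the unit variables inverted), and `Q` the ring
`A[y_1, ..., y_r] / (N_w(y) c = t ^ p)`. Claim: `P Q` for all states and all words `w`. Induction on `r`. Let
`E_ij(y)` be the letter which is applied first (the last one of the word). If `c_j` is free, split into
`c_j = 0` (closed) and `c_j` a unit (open; `ring_total`). If `c_j = 0` then `c` is not changed by the letter, and
`Q` is a polynomial ring in `y` over the ring of the shorter word. If `c_j` is a unit, replace `y` by
`z = c_i + y c_j`, a new free variable: this is the ring of the shorter word for the state where `c_i` is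
replaced by the free variable `z`; if `c_i` and `t_i` were equal they become independent, and if they were
independent the old `c_i` (free, zero, or a unit) only gives a factor line, point or multiplicative group.
For `r = 0` the equations are `c_i = t_i ^ p`, one for each coordinate, in separate variables: the factor is
`F_p[v] / (v - v ^ p)`, a product of `p` copies of `F_p` (`p - 1` copies if `v` is a unit), or a line, a
multiplicative group, a point, `F_p[t] / t ^ p`, or empty. (`Bnd` gives `P A → P A[z]` by `p_poly_fin` and
`P A → P A[z, 1/z]` by `ring_open`; `Pool.Agent.Z125.UN.Pc` has presentations by generators, relations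
and a denominator.) -/
def S_UNC : Prop :=
  ∀ (p : ℕ) [Fact p.Prime] (sep : Prop) (P : Sch (ZMod p) → Prop), Bnd sep P →
    ∀ (n r : ℕ) (w : Fin r → Fin n × Fin n) (hw : ∀ k, (w k).1 ≠ (w k).2),
      P (aff (ZMod p) (Frob p (prodW (ZMod p) (genW w hw))))

/-- POLD. The property descends from `X × A^m` to `X` (`Uni.jouanolou` for the unit ideal, see `f1` and
`jouOne` in `Pool/Agent/Y116/UV`). -/
def S_POLD : Prop :=
  ∀ (k : Type) [Field k] (sep : Prop) (P : Sch k → Prop), Bnd sep P → ∀ (A : Type) [CommRing A] [Algebra k A]
    [Algebra.FiniteType k A] (m : ℕ), P (aff k (MvPolynomial (Fin m) A)) → P (aff k A)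

/-- DIMF. An algebra which is finite over the polynomial ring in `d` variables has dimension at most `d`. -/
def S_DIMF : Prop :=
  ∀ (k : Type) [Field k] (d : ℕ) (A : Type) [CommRing A] [Algebra (MvPolynomial (Fin d) k) A]
    [Module.Finite (MvPolynomial (Fin d) k) A], ringKrullDim A ≤ d

end Pool.Agent.P8H48.FR
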